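import Pool.Agent.K1H70.GC.Sub2

/-!
# The tail polynomial is small in mean square if the variance is small on average
-/

set_option autoImplicit false

open Complex MeasureTheory Filter Topology

namespace Pool.Agent.K1H70.GC

open Pool.Agent.H448R2.GC

/-- the mean of the squares over the scales `x` between `y` and `z` -/
noncomputable def QM (T y z : ℝ) : ENNReal :=
  QQ (fun x h => ENNReal.ofReal (md x h / (h ^ 2 * x))) T 8 2 y z

theorem DD_prod (T w Y N : ℝ) (hT : 16 ≤ T) (hw : w ≤ Real.exp (1 / (8 * T)))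
    (hw2 : w ≤ 2) (hY : 0 < Y) (hYN : Y ≤ N) :
    ∫⁻ x in Set.Ioc Y N, ∫⁻ v in Set.Ioc 1 w, ENNReal.ofReal (VA.DD v x / x ^ 2) ≤
      ENNReal.ofReal (144 / T) * QM T Y (4 * N) := by
  have m : Measurable (fun z : ℝ × ℝ => ENNReal.ofReal (VA.DD z.2 z.1 / z.1 ^ 2)) :=
    (VA.DD_meas_swap.div (measurable_fst.pow_const 2)).ennreal_ofReal
  rw [lintegral_lintegral_swap (f := fun x v => ENNReal.ofReal (VA.DD v x / x ^ 2)) m.aemeasurable]
  calc ∫⁻ v in Set.Ioc 1 w, ∫⁻ x in Set.Ioc Y N, ENNReal.ofReal (VA.DD v x / x ^ 2)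
      ≤ ∫⁻ _v in Set.Ioc 1 w, ENNReal.ofReal (144 / T) * QM T Y (4 * N) :=
        setLIntegral_mono' measurableSet_Ioc fun v hv =>
          DD_le T v Y N hT hv.1.le (hv.2.trans hw) hY hYN
    _ = (ENNReal.ofReal (144 / T) * QM T Y (4 * N)) * ENNReal.ofReal (w - 1) := by
        rw [setLIntegral_const, Real.volume_Ioc]
    _ ≤ (ENNReal.ofReal (144 / T) * QM T Y (4 * N)) * 1 := by
        refine mul_le_mul' le_rfl ?_
        rw [ENNReal.ofReal_le_one]
        linarith
    _ = _ := mul_one _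

theorem FF_lint (k : ℕ) {c p q w T Y N E : ℝ} (hc : 1 ≤ c) (hpq : p ≤ q) (hT : 16 ≤ T)
    (hw1 : 1 ≤ w) (hw : w ≤ Real.exp (1 / (8 * T)))
    (hw2 : w ≤ 2) (hY : 0 < Y) (hYN : Y ≤ N) (hE : 0 ≤ E) :
    ∫⁻ x in Set.Ioc Y N, ENNReal.ofReal
      (E * VA.FF (VA.aN (k + 2) c p q) ⌊Real.exp (q + (k + 2 : ℕ) * c)⌋₊ w x ^ 2 / x ^ 2) ≤
      ENNReal.ofReal (576 * E / T) * QM T Y (4 * N) := by
  have hT0 : 0 < T := by linarith
  have m1 : Measurable (fun x : ℝ => ENNReal.ofReal (VA.DD w x / x ^ 2)) :=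
    ((VA.DD_meas_right w).div (measurable_id.pow_const 2)).ennreal_ofReal
  have m2 : Measurable (fun x : ℝ => ∫⁻ v in Set.Ioc 1 w, ENNReal.ofReal (VA.DD v x / x ^ 2)) := by
    have m : Measurable (fun z : ℝ × ℝ => ENNReal.ofReal (VA.DD z.2 z.1 / z.1 ^ 2)) :=
      (VA.DD_meas_swap.div (measurable_fst.pow_const 2)).ennreal_ofReal
    exact m.lintegral_prod_right'
  calc ∫⁻ x in Set.Ioc Y N, ENNReal.ofReal
          (E * VA.FF (VA.aN (k + 2) c p q) ⌊Real.exp (q + (k + 2 : ℕ) * c)⌋₊ w x ^ 2 / x ^ 2)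
      ≤ ∫⁻ x in Set.Ioc Y N, (ENNReal.ofReal (2 * E) * ENNReal.ofReal (VA.DD w x / x ^ 2) +
          ENNReal.ofReal (2 * E) * ∫⁻ v in Set.Ioc 1 w, ENNReal.ofReal (VA.DD v x / x ^ 2)) := by
        refine setLIntegral_mono' measurableSet_Ioc fun x hx => ?_
        have hx0 : 0 < x := hY.trans hx.1
        have h1 := VA.FF_sq k hc hpq hx0 hw1 hw2
        have h2 : ∫⁻ v in Set.Ioc 1 w, ENNReal.ofReal (VA.DD v x / x ^ 2) =
            ENNReal.ofReal ((∫ v in (1 : ℝ)..w, VA.DD v x) / x ^ 2) := by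
          rw [intervalIntegral.integral_of_le hw1, ← integral_div,
            ofReal_integral_eq_lintegral_ofReal]
          · exact ((intervalIntegrable_iff_integrableOn_Ioc_of_le hw1).1
              (VA.DD_ii hx0 hw1)).div_const _
          · exact Eventually.of_forall fun v => div_nonneg (VA.DD_nonneg _ _) (by positivity)
        have h3 : 0 ≤ ∫ v in (1 : ℝ)..w, VA.DD v x :=
          intervalIntegral.integral_nonneg hw1 (fun u _ => VA.DD_nonneg _ _)
        have h4 := VA.DD_nonneg w x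
        rw [h2, ← ENNReal.ofReal_mul (by positivity), ← ENNReal.ofReal_mul (by positivity),
          ← ENNReal.ofReal_add (by positivity) (by positivity)]
        apply ENNReal.ofReal_le_ofReal
        calc E * VA.FF (VA.aN (k + 2) c p q) ⌊Real.exp (q + (k + 2 : ℕ) * c)⌋₊ w x ^ 2 / x ^ 2
            ≤ E * (2 * VA.DD w x + 2 * ∫ v in (1 : ℝ)..w, VA.DD v x) / x ^ 2 := by
              apply div_le_div_of_nonneg_right _ (by positivity)
              exact mul_le_mul_of_nonneg_left h1 hE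
          _ = _ := by ring
    _ = ENNReal.ofReal (2 * E) * (∫⁻ x in Set.Ioc Y N, ENNReal.ofReal (VA.DD w x / x ^ 2)) +
          ENNReal.ofReal (2 * E) * ∫⁻ x in Set.Ioc Y N, ∫⁻ v in Set.Ioc 1 w,
            ENNReal.ofReal (VA.DD v x / x ^ 2) := by
        rw [lintegral_add_left (m1.const_mul _), lintegral_const_mul _ m1, lintegral_const_mul _ m2]
    _ ≤ ENNReal.ofReal (2 * E) * (ENNReal.ofReal (144 / T) * QM T Y (4 * N)) +
          ENNReal.ofReal (2 * E) * (ENNReal.ofReal (144 / T) * QM T Y (4 * N)) :=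
        add_le_add (mul_le_mul' le_rfl (DD_le T w Y N hT hw1 hw hY hYN))
          (mul_le_mul' le_rfl (DD_prod T w Y N hT hw hw2 hY hYN))
    _ = ENNReal.ofReal (576 * E / T) * QM T Y (4 * N) := by
        rw [← mul_assoc, ← ENNReal.ofReal_mul (by positivity), ← add_mul,
          ← ENNReal.ofReal_add (by positivity) (by positivity)]
        congr 2
        ring

theorem Ab2 (a b A η : ℝ) (ha : 1 < a) (hab : a < b) (hA : 0 ≤ A) (hη : 0 < η) (k : ℕ) (hk : 2 ≤ k) :
    ∃ C T₀ : ℝ, 0 < C ∧ ∀ T q : ℝ, T₀ ≤ T → 0 ≤ q →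
    QM T (T ^ a / 2) (4 * T ^ (b + η)) ≤ ENNReal.ofReal q →
    ∀ σ : ℝ, sm A T ≤ σ → σ ≤ 1 →
    ∫ t in (-(5 * T))..(5 * T),
      ‖fs k (η * Real.log T / k) (b * Real.log T) ((σ : ℂ) + (t : ℂ) * I) -
        fs k (η * Real.log T / k) (a * Real.log T) ((σ : ℂ) + (t : ℂ) * I)‖ ^ 2 ≤
      C * T * q := by
  obtain ⟨CP, hCP, planch⟩ := Pool.Agent.H448R2.GC.planch
  have hk0 : (0 : ℝ) < k := by
    have : (2 : ℝ) ≤ k := by exact_mod_cast hk
    linarith
  refine ⟨576 * CP * Real.exp (2 * A * (b + η)),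
    max 16 (Real.exp (2 + k / η + 2 * A)), by positivity, ?_⟩
  intro T q hT' hq hV σ hσ hσ1
  have hT16 : 16 ≤ T := (le_max_left _ _).trans hT'
  have hT : Real.exp (2 + k / η + 2 * A) ≤ T := (le_max_right _ _).trans hT'
  have hT0 : 0 < T := lt_of_lt_of_le (Real.exp_pos _) hT
  set L := Real.log T with hL
  have hL0 : 2 + k / η + 2 * A ≤ L := by
    rw [hL, Real.le_log_iff_exp_le hT0]
    exact hT
  have e1 : 0 ≤ (k : ℝ) / η := by positivity
  have hL2 : 2 ≤ L := by linarith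
  have hLk : k / η ≤ L := by linarith
  have hLA : 2 * A < L := by linarith
  have hLpos : 0 < L := by linarith
  have hT1 : 1 ≤ T := by linarith
  set c := η * L / k with hc
  have hc1 : 1 ≤ c := by
    rw [hc, le_div_iff₀ hk0, one_mul]
    rw [div_le_iff₀ hη] at hLk
    linarith
  have hc0 : 0 < c := by linarith
  have hpq : a * L ≤ b * L := mul_le_mul_of_nonneg_right hab.le hLpos.le
  have hσ0 : 0 < σ := by
    refine lt_of_lt_of_le ?_ hσ
    unfold sm
    rw [← hL, sub_pos, div_lt_iff₀ hLpos]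
    linarith
  set w := Real.exp (1 / (8 * T)) with hw
  have hw1 : 1 ≤ w := Real.one_le_exp (by positivity)
  have hw2 : w ≤ 2 := by
    rw [hw, ← Real.le_log_iff_exp_le (by norm_num)]
    have : 1 / (8 * T) ≤ 1 / 8 := by
      apply one_div_le_one_div_of_le (by norm_num)
      linarith
    have := Real.log_two_gt_d9
    linarith
  have hkc : (k : ℝ) * c = η * L := by
    rw [hc]
    field_simp
  have hexp : ∀ u : ℝ, T ^ u = Real.exp (u * L) := by
    intro u
    rw [Real.rpow_def_of_pos hT0, mul_comm]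
  have hN : Real.exp (b * L + k * c) = T ^ (b + η) := by
    rw [hkc, hexp]
    ring_nf
  have hpl := planch ⌊Real.exp (b * L + k * c)⌋₊ (VA.aN k c (a * L) (b * L)) σ T hσ0 hσ1 hT1
  have hcongr : ∫ t in (-(5 * T))..(5 * T),
      ‖fs k c (b * L) ((σ : ℂ) + (t : ℂ) * I) - fs k c (a * L) ((σ : ℂ) + (t : ℂ) * I)‖ ^ 2 =
      ∫ t in (-(5 * T))..(5 * T), ‖∑ n ∈ Finset.Icc 1 ⌊Real.exp (b * L + k * c)⌋₊,
        ((VA.aN k c (a * L) (b * L) n : ℝ) : ℂ) * (n : ℂ) ^ (-((σ : ℂ) + (t : ℂ) * I))‖ ^ 2 := by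
    apply intervalIntegral.integral_congr
    intro t _
    simp only
    rw [VA.fs_diff hc0 hpq]
  rw [hcongr]
  refine hpl.trans ?_
  set f : ℝ → ℝ := fun x => VA.FF (VA.aN k c (a * L) (b * L)) ⌊Real.exp (b * L + k * c)⌋₊ w x ^ 2
    with hf
  set Y : ℝ := T ^ a / 2 with hY
  have hY0 : 0 < Y := by positivity
  set N : ℝ := T ^ (b + η) with hNdef
  have hYN : Y ≤ N := by
    have h1 : T ^ a ≤ T ^ (b + η) := Real.rpow_le_rpow_of_exponent_le hT1 (by linarith)
    have h2 : 0 < T ^ a := by positivity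
    rw [hY, hNdef]
    linarith
  set E : ℝ := Real.exp (2 * A * (b + η)) with hE
  have hE0 : 0 ≤ E := (Real.exp_pos _).le
  have hf0 : ∀ x, 0 ≤ f x := fun x => sq_nonneg _
  have hfm : Measurable f := (VA.FF_meas _ _ w).pow_const 2
  -- the weight
  have hweight : ∀ x, x ∈ Set.Ioc Y N → x ^ (-(2 * σ + 1)) ≤ E / x ^ 2 := by
    intro x hx
    have hx0 : 0 < x := hY0.trans hx.1
    have hxY : 1 / 2 < x := by
      have h1 : 1 ≤ T ^ a := Real.one_le_rpow hT1 (by linarith)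
      have : 1 / 2 ≤ Y := by rw [hY]; linarith
      linarith [hx.1]
    have hsig : 1 - 2 * σ ≤ 2 * A / L := by
      unfold sm at hσ
      rw [← hL] at hσ
      have : 2 * A / L = 2 * (A / L) := by ring
      linarith
    rw [le_div_iff₀ (by positivity)]
    have h1 : x ^ (-(2 * σ + 1)) * x ^ 2 = Real.exp (Real.log x * (1 - 2 * σ)) := by
      rw [← Real.rpow_two, ← Real.rpow_add hx0, Real.rpow_def_of_pos hx0]
      congr 1
      ring
    rw [h1, hE]
    apply Real.exp_le_exp.2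
    have hx1 : 1 ≤ x := by
      have h1 : T ≤ T ^ a := by
        nth_rewrite 1 [← Real.rpow_one T]
        exact Real.rpow_le_rpow_of_exponent_le hT1 ha.le
      have : 8 ≤ Y := by rw [hY]; linarith
      linarith [hx.1]
    have hlogx0 : 0 ≤ Real.log x := Real.log_nonneg hx1
    have hlogx : Real.log x ≤ (b + η) * L := by
      rw [Real.log_le_iff_le_exp hx0, ← hexp]
      exact hx.2
    have hbη : 0 < b + η := by linarith
    calc Real.log x * (1 - 2 * σ) ≤ Real.log x * (2 * A / L) :=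
          mul_le_mul_of_nonneg_left hsig hlogx0
      _ ≤ (b + η) * L * (2 * A / L) := mul_le_mul_of_nonneg_right hlogx (by positivity)
      _ = 2 * A * (b + η) := by
        field_simp
  have hlow : ∀ x, 0 < x → x ∉ Set.Ioc Y N → f x = 0 := by
    intro x hx hxn
    rcases le_or_gt x Y with h | h
    · change VA.FF _ _ _ _ ^ 2 = 0
      rw [VA.FF_left hc0 hpq, zero_pow (by norm_num)]
      calc x * w ≤ Y * 2 := mul_le_mul h hw2 (by linarith) hY0.le
        _ = T ^ a := by rw [hY]; ring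
        _ = Real.exp (a * L) := hexp a
    · have h2 : N < x := by
        by_contra h3
        exact hxn ⟨h, not_lt.1 h3⟩
      change VA.FF _ _ _ _ ^ 2 = 0
      rw [VA.FF_right (Real.exp_pos _).le, zero_pow (by norm_num)]
      rw [hN]
      exact h2.le
  have hlint : ∫⁻ x in Set.Ioi (0 : ℝ), ENNReal.ofReal (f x * x ^ (-(2 * σ + 1))) ≤
      ENNReal.ofReal (576 * E / T * q) := by
    calc ∫⁻ x in Set.Ioi (0 : ℝ), ENNReal.ofReal (f x * x ^ (-(2 * σ + 1)))
        ≤ ∫⁻ x in Set.Ioi (0 : ℝ), (Set.Ioc Y N).indicator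
            (fun x => ENNReal.ofReal (E * f x / x ^ 2)) x := by
          refine setLIntegral_mono' measurableSet_Ioi fun x hx => ?_
          by_cases hxm : x ∈ Set.Ioc Y N
          · rw [Set.indicator_of_mem hxm]
            apply ENNReal.ofReal_le_ofReal
            calc f x * x ^ (-(2 * σ + 1)) ≤ f x * (E / x ^ 2) :=
                  mul_le_mul_of_nonneg_left (hweight x hxm) (hf0 x)
              _ = E * f x / x ^ 2 := by ring
          · rw [hlow x hx hxm, zero_mul, ENNReal.ofReal_zero]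
            exact zero_le
      _ ≤ ∫⁻ x, (Set.Ioc Y N).indicator (fun x => ENNReal.ofReal (E * f x / x ^ 2)) x :=
          setLIntegral_le_lintegral _ _
      _ = ∫⁻ x in Set.Ioc Y N, ENNReal.ofReal (E * f x / x ^ 2) :=
          lintegral_indicator measurableSet_Ioc _
      _ ≤ ENNReal.ofReal (576 * E / T) * QM T Y (4 * N) := by
          obtain ⟨k', rfl⟩ : ∃ k', k = k' + 2 := ⟨k - 2, by omega⟩
          exact FF_lint k' hc1 hpq hT16 hw1 le_rfl hw2 hY0 hYN hE0
      _ ≤ ENNReal.ofReal (576 * E / T) * ENNReal.ofReal q := mul_le_mul' le_rfl hV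
      _ = ENNReal.ofReal (576 * E / T * q) := (ENNReal.ofReal_mul (by positivity)).symm
  have hdy : ∫ x in Set.Ioi (0 : ℝ), f x * x ^ (-(2 * σ + 1)) ≤ 576 * E / T * q := by
    rw [integral_eq_lintegral_of_nonneg_ae]
    · exact ENNReal.toReal_le_of_le_ofReal (by positivity) hlint
    · refine (ae_restrict_iff' measurableSet_Ioi).2 (Eventually.of_forall fun x hx => ?_)
      exact mul_nonneg (hf0 x) (Real.rpow_nonneg (le_of_lt hx) _)
    · exact (hfm.mul (measurable_id.pow_const _)).aestronglyMeasurable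
  have hfin : ∫ x in Set.Ioi (0 : ℝ),
      (∑ n ∈ (Finset.Icc 1 ⌊Real.exp (b * L + k * c)⌋₊).filter
        (fun n : ℕ => x < n ∧ (n : ℝ) ≤ x * Real.exp (1 / (8 * T))),
        VA.aN k c (a * L) (b * L) n) ^ 2 * x ^ (-(2 * σ) - 1) =
      ∫ x in Set.Ioi (0 : ℝ), f x * x ^ (-(2 * σ + 1)) := by
    have e : -(2 * σ) - 1 = -(2 * σ + 1) := by ring
    rw [e]
    rfl
  rw [hfin]
  calc CP * T ^ 2 * ∫ x in Set.Ioi (0 : ℝ), f x * x ^ (-(2 * σ + 1))
      ≤ CP * T ^ 2 * (576 * E / T * q) :=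
        mul_le_mul_of_nonneg_left hdy (by positivity)
    _ = 576 * CP * E * T * q := by
        field_simp

end Pool.Agent.K1H70.GC
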