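import Pool.Agent.K1H70.GC.Var

/-!
# From lower integrals to integrals
-/

set_option autoImplicit false

open MeasureTheory Set Filter

namespace Pool.Agent.K1H70.GC

open Pool.Agent.H448R2.GC

/-- the inner lower integral -/
noncomputable def LV (T X : ℝ) : ENNReal :=
  ∫⁻ H in Ioc (X / (16 * T)) (4 * X / T), ENNReal.ofReal (VV X H / (H ^ 2 * X))

theorem md_le {x H : ℝ} (hx : 0 < x) (hH : 0 < H) : md x H ≤ (2 * x + H) ^ 2 := by
  unfold md
  have h1 := SV.abs_Mer_le (x + H / 2)
  have h2 := SV.abs_Mer_le (x - H / 2)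
  have h3 : |x + H / 2| ≤ x + H / 2 := le_of_eq (abs_of_pos (by linarith))
  have h4 : |x - H / 2| ≤ x + H / 2 := by
    rw [abs_le]
    constructor <;> linarith
  have h5 : |Mer (x + H / 2) - Mer (x - H / 2)| ≤ 2 * x + H :=
    (abs_sub _ _).trans (by linarith)
  rw [← sq_abs]
  exact pow_le_pow_left₀ (abs_nonneg _) h5 2

/-- a bound for the integrand -/
theorem VVR_le {T y z X H : ℝ} (hT : 0 < T) (hy : 0 < y) (hX : X ∈ Ioc y z)
    (hH : H ∈ Ioc (X / (16 * T)) (4 * X / T)) :
    ENNReal.ofReal (VV X H / (H ^ 2 * X)) ≤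
      ENNReal.ofReal ((4 * z + 4 * z / T) ^ 2 / ((y / (16 * T)) ^ 2 * y ^ 2) * z) := by
  have hX0 : 0 < X := hy.trans hX.1
  have hz : 0 < z := lt_of_lt_of_le hX0 hX.2
  have hH0 : 0 < H := lt_trans (by positivity) hH.1
  rw [VV_lint hX0 hH0]
  have hHl : y / (16 * T) ≤ H := by
    refine le_trans ?_ hH.1.le
    exact div_le_div_of_nonneg_right hX.1.le (by positivity)
  have hHu : H ≤ 4 * z / T := by
    refine hH.2.trans ?_
    exact div_le_div_of_nonneg_right (by linarith [hX.2]) hT.le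
  calc ∫⁻ x in Ioc X (2 * X), ENNReal.ofReal (md x H / (H ^ 2 * X ^ 2))
      ≤ ∫⁻ _x in Ioc X (2 * X),
          ENNReal.ofReal ((4 * z + 4 * z / T) ^ 2 / ((y / (16 * T)) ^ 2 * y ^ 2)) := by
        refine setLIntegral_mono' measurableSet_Ioc fun x hx => ?_
        apply ENNReal.ofReal_le_ofReal
        have hx0 : 0 < x := hX0.trans hx.1
        apply div_le_div₀ (by positivity) ?_ (by positivity) ?_
        · refine (md_le hx0 hH0).trans ?_
          apply pow_le_pow_left₀ (by positivity)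
          linarith [hx.2, hX.2]
        · exact mul_le_mul (pow_le_pow_left₀ (by positivity) hHl 2)
            (pow_le_pow_left₀ hy.le hX.1.le 2) (by positivity) (by positivity)
    _ = ENNReal.ofReal ((4 * z + 4 * z / T) ^ 2 / ((y / (16 * T)) ^ 2 * y ^ 2)) *
          ENNReal.ofReal X := by
        rw [setLIntegral_const, Real.volume_Ioc]
        congr 2
        ring
    _ ≤ ENNReal.ofReal ((4 * z + 4 * z / T) ^ 2 / ((y / (16 * T)) ^ 2 * y ^ 2)) *
          ENNReal.ofReal z := mul_le_mul' le_rfl (ENNReal.ofReal_le_ofReal hX.2)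
    _ = _ := (ENNReal.ofReal_mul (by positivity)).symm

theorem LV_le {T y z X : ℝ} (hT : 0 < T) (hy : 0 < y) (hX : X ∈ Ioc y z) :
    LV T X ≤ ENNReal.ofReal ((4 * z + 4 * z / T) ^ 2 / ((y / (16 * T)) ^ 2 * y ^ 2) * z) *
      ENNReal.ofReal (4 * z / T) := by
  have hX0 : 0 < X := hy.trans hX.1
  unfold LV
  calc ∫⁻ H in Ioc (X / (16 * T)) (4 * X / T), ENNReal.ofReal (VV X H / (H ^ 2 * X))
      ≤ ∫⁻ _H in Ioc (X / (16 * T)) (4 * X / T),
          ENNReal.ofReal ((4 * z + 4 * z / T) ^ 2 / ((y / (16 * T)) ^ 2 * y ^ 2) * z) :=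
        setLIntegral_mono' measurableSet_Ioc fun H hH => VVR_le hT hy hX hH
    _ = ENNReal.ofReal ((4 * z + 4 * z / T) ^ 2 / ((y / (16 * T)) ^ 2 * y ^ 2) * z) *
          ENNReal.ofReal (4 * X / T - X / (16 * T)) := by
        rw [setLIntegral_const, Real.volume_Ioc]
    _ ≤ _ := by
        refine mul_le_mul' le_rfl (ENNReal.ofReal_le_ofReal ?_)
        have h1 : 0 ≤ X / (16 * T) := by positivity
        have h2 : 4 * X / T ≤ 4 * z / T := div_le_div_of_nonneg_right (by linarith [hX.2]) hT.le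
        linarith

theorem LV_eq {T y z X : ℝ} (hT : 0 < T) (hy : 0 < y) (hX : X ∈ Ioc y z) :
    LV T X = ∫⁻ H, ∫⁻ x, PP T y z ((X, H), x) := by
  have hX0 : 0 < X := hy.trans hX.1
  unfold LV
  rw [← lintegral_indicator measurableSet_Ioc]
  refine lintegral_congr fun H => ?_
  by_cases hm : H ∈ Ioc (X / (16 * T)) (4 * X / T)
  · rw [indicator_of_mem hm]
    have hH : 0 < H := lt_trans (by positivity) hm.1
    rw [VV_lint hX0 hH, ← lintegral_indicator measurableSet_Ioc]
    refine lintegral_congr fun x => ?_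
    unfold PP
    by_cases hx : x ∈ Ioc X (2 * X)
    · rw [indicator_of_mem hx, indicator_of_mem (show ((X, H), x) ∈ SS T y z from ⟨⟨hX, hm⟩, hx⟩)]
    · rw [indicator_of_notMem hx]
      exact (indicator_of_notMem (show ((X, H), x) ∉ SS T y z from fun hc => hx hc.2) _).symm
  · rw [indicator_of_notMem hm]
    have : ∀ x, PP T y z ((X, H), x) = 0 := fun x =>
      indicator_of_notMem (show ((X, H), x) ∉ SS T y z from fun hc => hm hc.1.2) _
    simp only [this, lintegral_zero]

/-- the inner integral -/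
noncomputable def JV (T X : ℝ) : ℝ := (∫ H in (X / (16 * T))..(4 * X / T), VV X H / H ^ 2) / X

theorem JV_eq {T X : ℝ} (hT : 0 < T) (hX : 0 < X) : JV T X = (LV T X).toReal := by
  unfold JV LV
  have hle : X / (16 * T) ≤ 4 * X / T := by
    rw [div_le_div_iff₀ (by positivity) hT]
    nlinarith [mul_pos hX hT]
  rw [intervalIntegral.integral_of_le hle, ← integral_div, ← integral_eq_lintegral_of_nonneg_ae]
  · refine setIntegral_congr_fun measurableSet_Ioc fun H hH => ?_
    rw [div_div]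
  · refine (ae_restrict_iff' measurableSet_Ioc).2 (Eventually.of_forall fun H hH => ?_)
    have hH0 : 0 < H := lt_trans (by positivity) hH.1
    have := VV_nonneg hX hH0
    positivity
  · have m : Measurable (fun H : ℝ => ∫⁻ x in Ioc X (2 * X), ENNReal.ofReal (md x H / (H ^ 2 * X ^ 2))) := by
      have m1 : Measurable (fun p : ℝ × ℝ => ENNReal.ofReal (md p.2 p.1 / (p.1 ^ 2 * X ^ 2))) := by
        have f1 : Measurable (fun p : ℝ × ℝ => p.1) := measurable_fst
        have f4 : Measurable (fun p : ℝ × ℝ => p.2) := measurable_snd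
        have h1 : Measurable (fun p : ℝ × ℝ => md p.2 p.1) := by
          unfold md
          exact ((meas_Mer'.comp (f4.add (f1.div_const 2))).sub
            (meas_Mer'.comp (f4.sub (f1.div_const 2)))).pow_const 2
        exact (h1.div ((f1.pow_const 2).mul_const _)).ennreal_ofReal
      exact m1.lintegral_prod_right'
    refine (m.ennreal_toReal).aestronglyMeasurable.congr ?_
    refine (ae_restrict_iff' measurableSet_Ioc).2 (Eventually.of_forall fun H hH => ?_)
    have hH0 : 0 < H := lt_trans (by positivity) hH.1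
    have := VV_nonneg hX hH0
    show (∫⁻ x in Ioc X (2 * X), ENNReal.ofReal (md x H / (H ^ 2 * X ^ 2))).toReal =
      VV X H / (H ^ 2 * X)
    rw [← VV_lint hX hH0, ENNReal.toReal_ofReal (by positivity)]

theorem LV_ne_top {T X : ℝ} (hT : 0 < T) (hX : 0 < X) : LV T X ≠ ⊤ := by
  refine ne_top_of_le_ne_top ?_ (LV_le (y := X / 2) (z := X) hT (by positivity) ⟨by linarith, le_rfl⟩)
  exact ENNReal.mul_ne_top ENNReal.ofReal_ne_top ENNReal.ofReal_ne_top

theorem QV_real {T y z : ℝ} (hT : 0 < T) (hy : 0 < y) (hyz : y ≤ z) :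
    QQ (fun X H => ENNReal.ofReal (VV X H / (H ^ 2 * X))) T 16 4 y z =
      ENNReal.ofReal (∫ X in y..z, JV T X) := by
  have h0 : QQ (fun X H => ENNReal.ofReal (VV X H / (H ^ 2 * X))) T 16 4 y z =
      ∫⁻ X in Ioc y z, ENNReal.ofReal (JV T X) := by
    unfold QQ
    refine setLIntegral_congr_fun measurableSet_Ioc fun X hX => ?_
    have hX0 : 0 < X := hy.trans hX.1
    simp only
    rw [JV_eq hT hX0, ENNReal.ofReal_toReal (LV_ne_top hT hX0)]
    rfl
  have m : Measurable (fun X : ℝ => ∫⁻ H, ∫⁻ x, PP T y z ((X, H), x)) := by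
    have m1 : Measurable (fun p : ℝ × ℝ => ∫⁻ x, PP T y z (p, x)) := (meas_PP T y z).lintegral_prod_right'
    exact m1.lintegral_prod_right'
  have hmeas : AEStronglyMeasurable (JV T) (volume.restrict (Ioc y z)) := by
    refine (m.ennreal_toReal).aestronglyMeasurable.congr ?_
    refine (ae_restrict_iff' measurableSet_Ioc).2 (Eventually.of_forall fun X hX => ?_)
    have hX0 : 0 < X := hy.trans hX.1
    rw [JV_eq hT hX0, LV_eq hT hy hX]
  have hnn : ∀ᵐ X ∂(volume.restrict (Ioc y z)), 0 ≤ JV T X := by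
    refine (ae_restrict_iff' measurableSet_Ioc).2 (Eventually.of_forall fun X hX => ?_)
    have hX0 : 0 < X := hy.trans hX.1
    rw [JV_eq hT hX0]
    exact ENNReal.toReal_nonneg
  have hfin : QQ (fun X H => ENNReal.ofReal (VV X H / (H ^ 2 * X))) T 16 4 y z ≠ ⊤ := by
    set K : ENNReal := ENNReal.ofReal ((4 * z + 4 * z / T) ^ 2 / ((y / (16 * T)) ^ 2 * y ^ 2) * z) *
      ENNReal.ofReal (4 * z / T) with hK
    have h1 : QQ (fun X H => ENNReal.ofReal (VV X H / (H ^ 2 * X))) T 16 4 y z ≤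
        K * ENNReal.ofReal (z - y) := by
      calc QQ (fun X H => ENNReal.ofReal (VV X H / (H ^ 2 * X))) T 16 4 y z
          ≤ ∫⁻ _X in Ioc y z, K := setLIntegral_mono' measurableSet_Ioc fun X hX => LV_le hT hy hX
        _ = K * ENNReal.ofReal (z - y) := by rw [setLIntegral_const, Real.volume_Ioc]
    refine ne_top_of_le_ne_top ?_ h1
    exact ENNReal.mul_ne_top (ENNReal.mul_ne_top ENNReal.ofReal_ne_top ENNReal.ofReal_ne_top)
      ENNReal.ofReal_ne_top
  rw [intervalIntegral.integral_of_le hyz, integral_eq_lintegral_of_nonneg_ae hnn hmeas, ← h0,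
    ENNReal.ofReal_toReal hfin]

end Pool.Agent.K1H70.GC
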