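import Pool.Agent.K1H70.GC.Main2
import Pool.Agent.K1H70.GC.RealInt

/-!
# The mean of the variances over the scales
-/

set_option autoImplicit false

open MeasureTheory Set Filter Topology

namespace Pool.Agent.K1H70.GC

open Pool.Agent.H448R2.GC

theorem main3 (a b : ℝ) (ha : 1 < a) (hab : a + 1 < b) : ∃ c T₀ : ℝ, 0 < c ∧ 1 < T₀ ∧ ∀ T : ℝ, T₀ ≤ T →
    c * Real.log T ≤ ∫ X in (T ^ a)..(T ^ b),
      (∫ H in (X / (16 * T))..(4 * X / T), VV X H / H ^ 2) / X := by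
  set a' : ℝ := (a + (b - 1)) / 2 with ha'
  have h1 : a < a' := by rw [ha']; linarith
  have h2 : a' + 1 < b := by rw [ha']; linarith
  obtain ⟨c, T₁, hc, hT₁, hmain⟩ := main2 a' b (by linarith) h2
  obtain ⟨T₂, hT₂⟩ : ∃ T₂ : ℝ, ∀ T : ℝ, T₂ ≤ T → 4 ≤ T ^ (a' - a) :=
    eventually_atTop.1 ((tendsto_rpow_atTop (by linarith : 0 < a' - a)).eventually_ge_atTop 4)
  refine ⟨c / 2, max T₁ (max T₂ 2), by positivity, ?_, fun T hT => ?_⟩
  · exact lt_of_lt_of_le (by norm_num) ((le_max_right T₂ 2).trans (le_max_right _ _))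
  have hTT1 : T₁ ≤ T := (le_max_left _ _).trans hT
  have hTT2 : T₂ ≤ T := ((le_max_left _ _).trans (le_max_right _ _)).trans hT
  have hTT3 : 2 ≤ T := ((le_max_right _ _).trans (le_max_right _ _)).trans hT
  have hT0 : 0 < T := by linarith
  have hy : 0 < T ^ a := Real.rpow_pos_of_pos hT0 a
  have hya : T ^ a ≤ T ^ a' / 4 := by
    have e1 : T ^ a' = T ^ (a' - a) * T ^ a := by
      rw [← Real.rpow_add hT0]
      congr 1
      ring
    rw [e1]
    nlinarith [hT₂ T hTT2]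
  have hyz : T ^ a ≤ T ^ b := Real.rpow_le_rpow_of_exponent_le (by linarith) (by linarith)
  have key := hmain T hTT1
  have e2 : T ^ a' / 2 = 2 * (T ^ a' / 4) := by ring
  rw [e2] at key
  have k2 := QM_le_QV T (T ^ a' / 4) (T ^ b) hT0 (by positivity)
  have k3 : QQ (fun X H => ENNReal.ofReal (VV X H / (H ^ 2 * X))) T 16 4 (T ^ a' / 4) (T ^ b) ≤
      QQ (fun X H => ENNReal.ofReal (VV X H / (H ^ 2 * X))) T 16 4 (T ^ a) (T ^ b) := by
    unfold QQ
    exact lintegral_mono_set (Ioc_subset_Ioc_left hya)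
  rw [QV_real hT0 hy hyz] at k3
  have k4 : ENNReal.ofReal (c * Real.log T) <
      2 * ENNReal.ofReal (∫ X in (T ^ a)..(T ^ b), JV T X) :=
    lt_of_lt_of_le key (k2.trans (mul_le_mul' le_rfl k3))
  have e3 : (2 : ENNReal) = ENNReal.ofReal 2 := by simp
  rw [e3, ← ENNReal.ofReal_mul (by norm_num), ENNReal.ofReal_lt_ofReal_iff'] at k4
  have k5 := k4.1
  have k6 : (∫ X in (T ^ a)..(T ^ b), JV T X) = ∫ X in (T ^ a)..(T ^ b),
      (∫ H in (X / (16 * T))..(4 * X / T), VV X H / H ^ 2) / X := rfl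
  rw [k6] at k5
  linarith

end Pool.Agent.K1H70.GC
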