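import Pool.Agent.K1H70.GC.Err2
import Pool.Agent.H448R2.GC.F2

/-!
# The lower bound for the mean over the scales
-/

set_option autoImplicit false

open Complex MeasureTheory Filter Topology

namespace Pool.Agent.K1H70.GC

open Pool.Agent.H448R2.GC

theorem main2 (a b : ℝ) (ha : 1 < a) (hab : a + 1 < b) : ∃ c T₀ : ℝ, 0 < c ∧ 1 ≤ T₀ ∧ ∀ T : ℝ, T₀ ≤ T →
    ENNReal.ofReal (c * Real.log T) < QM T (T ^ a / 2) (T ^ b) := by
  obtain ⟨c₀, hc₀, hlow⟩ := Pool.Agent.H448R2.GC.lower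
  set A : ℝ := max 1 (Real.log (2 / c₀)) with hA
  have hA1 : 1 ≤ A := le_max_left _ _
  have hA0 : 0 ≤ A := by linarith
  have hcA : 2 ≤ c₀ * Real.exp A := by
    have h1 : Real.exp (Real.log (2 / c₀)) ≤ Real.exp A := Real.exp_le_exp.2 (le_max_right _ _)
    rw [Real.exp_log (by positivity)] at h1
    rw [div_le_iff₀ hc₀] at h1
    linarith
  obtain ⟨cb, C₁, T₁, K₀, hcb, hC₁, hblocks⟩ := Pool.Agent.H448R2.GC.blocks (1 / 16) (2 * A + 3) (by norm_num) (by linarith)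
  obtain ⟨η, k₁, hη, herr⟩ := err_small2 A a b C₁ K₀ hA1 ha hab hC₁
  obtain ⟨k₂, hlow⟩ := hlow A a η hA0 ha hη
  set k : ℕ := max 1 (max k₁ k₂) with hk
  obtain ⟨C, T₂, hC, herr⟩ := herr k (le_trans (le_max_left _ _) (le_max_right _ _))
  obtain ⟨T₃, hlow⟩ := hlow k (le_trans (le_max_right _ _) (le_max_right _ _))
  obtain ⟨T₄, hMM⟩ := Pool.Agent.H448R2.GC.MM_sq A hA0
  obtain ⟨T₅, hL1⟩ := F2.ev_log (8 / cb)
  obtain ⟨T₆, hL2⟩ := F2.ev_log (8 * A + 1)
  set c : ℝ := min 1 ((cb / (2 * C)) ^ 2) with hc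
  have hc0 : 0 < c := by
    apply lt_min one_pos
    positivity
  refine ⟨c, max 1 (max T₁ (max T₂ (max T₃ (max T₄ (max T₅ T₆))))), hc0, le_max_left _ _, fun T hT => ?_⟩
  have hT1 : 1 ≤ T := (le_max_left _ _).trans hT
  have hT' : max T₁ (max T₂ (max T₃ (max T₄ (max T₅ T₆)))) ≤ T := (le_max_right _ _).trans hT
  simp only [max_le_iff] at hT'
  obtain ⟨h1, h2, h3, h4, h5, h6⟩ := hT'
  have hL1 := hL1 T h5
  have hL2 := hL2 T h6
  have hL0 : 0 < Real.log T := by linarith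
  by_contra hcon
  rw [not_lt] at hcon
  obtain ⟨S, hGood, hQ⟩ := hblocks T h1
  have hS1 : ∀ n ∈ S, 1 ≤ n := fun n hn => Nat.one_le_iff_ne_zero.2 (hGood.sqf n hn).ne_zero
  obtain ⟨τ, hτ1, hτ2, hE⟩ := herr T h2 S hGood c hc0.le (min_le_left _ _) hcon
  have hlo := hlow T h3 S hGood.one_mem hGood.sqf hGood.le hGood.dvd τ hτ1 hτ2
  have hmm := hMM T h4 S hGood.sqf hGood.le τ
  have hsm0 : 1 / 8 ≤ sm A T := by
    unfold sm
    have : A / Real.log T ≤ 1 / 8 := by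
      rw [div_le_iff₀ hL0]
      linarith
    linarith
  have hsm1 : sm A T ≤ 1 / 2 := by
    unfold sm
    have : 0 ≤ A / Real.log T := by positivity
    linarith
  have hsp := F2.split_ineq A T a η k S τ hT1 hη (le_max_left _ _) hL0 hsm0 (by linarith) hS1
  set Q : ℝ := ∑ n ∈ S, (n : ℝ) ^ (-(2 * sm A T)) with hQdef
  have hQ0 : 0 ≤ Q := Finset.sum_nonneg fun n _ => by positivity
  have hQ1 : cb * Real.log T ≤ Q := by
    refine hQ.trans (Finset.sum_le_sum fun n hn => ?_)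
    have hn : (1 : ℝ) ≤ n := by exact_mod_cast hS1 n hn
    rw [one_div, ← Real.rpow_neg_one]
    apply Real.rpow_le_rpow_of_exponent_le hn
    linarith
  have hsq : C * Real.sqrt c ≤ cb / 2 := by
    have h7 : Real.sqrt c ≤ cb / (2 * C) := by
      rw [Real.sqrt_le_left (by positivity)]
      exact min_le_right _ _
    calc C * Real.sqrt c ≤ C * (cb / (2 * C)) := mul_le_mul_of_nonneg_left h7 hC.le
      _ = cb / 2 := by field_simp
  have h8 : 2 * Q ≤ c₀ * Real.exp A * Q := mul_le_mul_of_nonneg_right hcA hQ0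
  have h9 : C * Real.sqrt c * Real.log T ≤ cb / 2 * Real.log T := mul_le_mul_of_nonneg_right hsq hL0.le
  have h10 : 2 * Q - 1 ≤ Q + 1 + (cb / 2 * Real.log T + 1) := by linarith
  have h11 : cb * Real.log T ≤ cb / 2 * Real.log T + 3 := by linarith
  have h12 : 8 ≤ cb * Real.log T := by
    rw [div_le_iff₀ hcb] at hL1
    linarith [mul_comm (Real.log T) cb]
  linarith

end Pool.Agent.K1H70.GC
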