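import Pool.Agent.H448R2.GC.VA

/-!
# The mean square of the short sums over all scales

Lower integrals over `y < x ≤ z` and `h ≈ x / T`.
-/

set_option autoImplicit false

open MeasureTheory Set Filter

namespace Pool.Agent.K1H70.GC

open Pool.Agent.H448R2.GC

/-- the square of the sum over `(x - h/2, x + h/2]` -/
noncomputable def md (x h : ℝ) : ℝ := (Mer (x + h / 2) - Mer (x - h / 2)) ^ 2

/-- the square of the sum over `(x, x + h]` -/
noncomputable def mg (x h : ℝ) : ℝ := (Mer (x + h) - Mer x) ^ 2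

theorem meas_Mer' : Measurable Mer := SV.meas_Mer

theorem meas_mg : Measurable (fun p : ℝ × ℝ => mg p.1 p.2) :=
  ((meas_Mer'.comp (measurable_fst.add measurable_snd)).sub (meas_Mer'.comp measurable_fst)).pow_const 2

theorem meas_md : Measurable (fun p : ℝ × ℝ => md p.1 p.2) :=
  ((meas_Mer'.comp (measurable_fst.add (measurable_snd.div_const 2))).sub
    (meas_Mer'.comp (measurable_fst.sub (measurable_snd.div_const 2)))).pow_const 2

theorem md_nonneg (x h : ℝ) : 0 ≤ md x h := sq_nonneg _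

theorem mg_nonneg (x h : ℝ) : 0 ≤ mg x h := sq_nonneg _

/-- the region `y < x ≤ z`, `x / (a T) < h ≤ b x / T` -/
def RR (T a b y z : ℝ) : Set (ℝ × ℝ) :=
  {p | (y < p.1 ∧ p.1 ≤ z) ∧ (p.1 / (a * T) < p.2 ∧ p.2 ≤ b * p.1 / T)}

theorem meas_RR (T a b y z : ℝ) : MeasurableSet (RR T a b y z) :=
  ((measurableSet_lt measurable_const measurable_fst).inter
      (measurableSet_le measurable_fst measurable_const)).inter
      ((measurableSet_lt (measurable_fst.div_const _) measurable_snd).inter
      (measurableSet_le measurable_snd ((measurable_fst.const_mul b).div_const _)))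

/-- `∫_y^z ∫_{x/aT}^{b x/T} f(x, h) dh dx` -/
noncomputable def QQ (f : ℝ → ℝ → ENNReal) (T a b y z : ℝ) : ENNReal :=
  ∫⁻ x in Ioc y z, ∫⁻ h in Ioc (x / (a * T)) (b * x / T), f x h

theorem QQ_eq (f : ℝ → ℝ → ENNReal) (T a b y z : ℝ) :
    QQ f T a b y z = ∫⁻ x, ∫⁻ h, (RR T a b y z).indicator (fun p => f p.1 p.2) (x, h) := by
  unfold QQ
  rw [← lintegral_indicator measurableSet_Ioc]
  refine lintegral_congr fun x => ?_
  by_cases hx : x ∈ Ioc y z
  · rw [indicator_of_mem hx, ← lintegral_indicator measurableSet_Ioc]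
    refine lintegral_congr fun h => ?_
    by_cases hh : h ∈ Ioc (x / (a * T)) (b * x / T)
    · rw [indicator_of_mem hh, indicator_of_mem (show (x, h) ∈ RR T a b y z from ⟨hx, hh⟩)]
    · rw [indicator_of_notMem hh, indicator_of_notMem (fun hc => hh hc.2)]
  · rw [indicator_of_notMem hx]
    have : ∀ h, (RR T a b y z).indicator (fun p => f p.1 p.2) (x, h) = 0 := fun h =>
      indicator_of_notMem (fun hc => hx hc.1) _
    simp only [this, lintegral_zero]

theorem QQ_swap (f : ℝ → ℝ → ENNReal) (hf : Measurable (fun p : ℝ × ℝ => f p.1 p.2)) (T a b y z : ℝ) :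
    QQ f T a b y z = ∫⁻ h, ∫⁻ x, (RR T a b y z).indicator (fun p => f p.1 p.2) (x, h) := by
  rw [QQ_eq]
  exact lintegral_lintegral_swap (f := fun x h => (RR T a b y z).indicator (fun p => f p.1 p.2) (x, h))
    (hf.indicator (meas_RR T a b y z)).aemeasurable

/-- comparison after a shift of `x` by `h / 2` -/
theorem QG_le (T y z : ℝ) (hT : 16 ≤ T) (hy : 0 < y) :
    QQ (fun x h => ENNReal.ofReal (mg x h / x ^ 3)) T 4 2 y z ≤
      ENNReal.ofReal (8 / T ^ 2) *
        QQ (fun x h => ENNReal.ofReal (md x h / (h ^ 2 * x))) T 8 2 y (2 * z) := by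
  have hT0 : 0 < T := by linarith
  have m1 : Measurable (fun p : ℝ × ℝ => ENNReal.ofReal (mg p.1 p.2 / p.1 ^ 3)) :=
    (meas_mg.div (measurable_fst.pow_const 3)).ennreal_ofReal
  have m2 : Measurable (fun p : ℝ × ℝ => ENNReal.ofReal (md p.1 p.2 / (p.2 ^ 2 * p.1))) :=
    (meas_md.div ((measurable_snd.pow_const 2).mul measurable_fst)).ennreal_ofReal
  rw [QQ_swap _ m1, QQ_swap _ m2, ← lintegral_const_mul']
  swap
  · exact ENNReal.ofReal_ne_top
  refine lintegral_mono fun h => ?_
  rw [← lintegral_const_mul' _ _ ENNReal.ofReal_ne_top]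
  rw [← lintegral_sub_right_eq_self (fun x => (RR T 4 2 y z).indicator
    (fun p : ℝ × ℝ => ENNReal.ofReal (mg p.1 p.2 / p.1 ^ 3)) (x, h)) (h / 2)]
  refine lintegral_mono fun x => ?_
  simp only
  by_cases hm : (x - h / 2, h) ∈ RR T 4 2 y z
  · rw [indicator_of_mem hm]
    obtain ⟨⟨h1, h2⟩, h3, h4⟩ := hm
    simp only at h1 h2 h3 h4
    have hx0 : 0 < x - h / 2 := by linarith
    have hh : 0 < h := lt_trans (by positivity) h3
    rw [div_lt_iff₀ (by positivity)] at h3
    rw [le_div_iff₀ hT0] at h4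
    have h5 : 16 * h ≤ 2 * (x - h / 2) := by nlinarith
    have hx : 0 < x := by linarith
    have hm2 : (x, h) ∈ RR T 8 2 y (2 * z) := by
      refine ⟨⟨by simp only; linarith, by simp only; linarith⟩, ?_, ?_⟩
      · simp only
        rw [div_lt_iff₀ (by positivity)]
        nlinarith
      · simp only
        rw [le_div_iff₀ hT0]
        linarith
    rw [indicator_of_mem hm2]
    simp only
    rw [← ENNReal.ofReal_mul (by positivity)]
    apply ENNReal.ofReal_le_ofReal
    have e : mg (x - h / 2) h = md x h := by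
      unfold mg md
      congr 3
      ring
    rw [e]
    have key : h ^ 2 * x * T ^ 2 ≤ 8 * (x - h / 2) ^ 3 := by
      have k1 : (h * T) ^ 2 ≤ (2 * (x - h / 2)) ^ 2 := pow_le_pow_left₀ (by positivity) h4 2
      have k2 : x ≤ 2 * (x - h / 2) := by linarith
      calc h ^ 2 * x * T ^ 2 = (h * T) ^ 2 * x := by ring
        _ ≤ (2 * (x - h / 2)) ^ 2 * (2 * (x - h / 2)) :=
            mul_le_mul k1 k2 hx.le (by positivity)
        _ = 8 * (x - h / 2) ^ 3 := by ring
    rw [div_mul_div_comm, div_le_div_iff₀ (by positivity) (by positivity)]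
    have := md_nonneg x h
    calc md x h * (T ^ 2 * (h ^ 2 * x)) = md x h * (h ^ 2 * x * T ^ 2) := by ring
      _ ≤ md x h * (8 * (x - h / 2) ^ 3) := mul_le_mul_of_nonneg_left key this
      _ = 8 * md x h * (x - h / 2) ^ 3 := by ring
  · rw [indicator_of_notMem hm]
    exact zero_le

end Pool.Agent.K1H70.GC
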