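import Pool.Agent.K1H70.GC.Sub

/-!
# Differences at a fixed ratio and differences at a fixed distance, averaged over all scales
-/

set_option autoImplicit false

open MeasureTheory Set Filter

namespace Pool.Agent.K1H70.GC

open Pool.Agent.H448R2.GC

/-- the inner integral -/
noncomputable def Ph (T x : ℝ) : ENNReal :=
  ∫⁻ h in Ioc (x / (4 * T)) (2 * x / T), ENNReal.ofReal (mg x h / x ^ 3)

theorem meas_Ph (T : ℝ) : Measurable (Ph T) := by
  set S : Set (ℝ × ℝ) := {p | p.1 / (4 * T) < p.2 ∧ p.2 ≤ 2 * p.1 / T} with hS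
  have mS : MeasurableSet S := (measurableSet_lt (measurable_fst.div_const _) measurable_snd).inter
      (measurableSet_le measurable_snd ((measurable_fst.const_mul 2).div_const _))
  have m1 : Measurable (S.indicator (fun p : ℝ × ℝ => ENNReal.ofReal (mg p.1 p.2 / p.1 ^ 3))) :=
    ((meas_mg.div (measurable_fst.pow_const 3)).ennreal_ofReal).indicator mS
  have m2 := m1.lintegral_prod_right' (ν := (volume : Measure ℝ))
  convert m2 using 1
  funext x
  unfold Ph
  rw [← lintegral_indicator measurableSet_Ioc]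
  refine lintegral_congr fun h => ?_
  by_cases hh : h ∈ Ioc (x / (4 * T)) (2 * x / T)
  · rw [indicator_of_mem hh, indicator_of_mem (show (x, h) ∈ S from hh)]
  · rw [indicator_of_notMem hh]
    exact (indicator_of_notMem (show (x, h) ∉ S from hh) _).symm

theorem vbound {T v : ℝ} (hT : 16 ≤ T) (hv : v ≤ Real.exp (1 / (8 * T))) :
    v ≤ 1 + 9 / (64 * T) := hv.trans (SV.exp_bound (by linarith))

/-- the comparison at one point -/
theorem pt (T v x : ℝ) (hT : 16 ≤ T) (hv1 : 1 ≤ v) (hv : v ≤ Real.exp (1 / (8 * T))) (hx : 0 < x) :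
    ENNReal.ofReal (VA.DD v x / x ^ 2) ≤
      ENNReal.ofReal (2 * T) * Ph T x + ENNReal.ofReal (16 * T) * Ph T (v * x) := by
  have hT0 : 0 < T := by linarith
  have hv' := vbound hT hv
  have hv2 : v ≤ 2 := by
    have : 9 / (64 * T) ≤ 1 := by
      rw [div_le_one (by positivity)]
      linarith
    linarith
  have hvx : 0 < v * x := by positivity
  set s : ℝ := (v - 1) * x with hs
  have hs0 : 0 ≤ s := mul_nonneg (by linarith) hx.le
  have hs1 : s * (64 * T) ≤ 9 * x := by
    have h1 : (v - 1) * (64 * T) ≤ 9 := by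
      have h2 : v - 1 ≤ 9 / (64 * T) := by linarith
      calc (v - 1) * (64 * T) ≤ 9 / (64 * T) * (64 * T) := mul_le_mul_of_nonneg_right h2 (by positivity)
        _ = 9 := by field_simp
    calc s * (64 * T) = ((v - 1) * (64 * T)) * x := by rw [hs]; ring
      _ ≤ 9 * x := mul_le_mul_of_nonneg_right h1 hx.le
  set I : Set ℝ := Ioc (x / T) (2 * x / T) with hI
  have volI : volume I = ENNReal.ofReal (x / T) := by
    rw [hI, Real.volume_Ioc]
    congr 1
    ring
  have hne : ENNReal.ofReal (x / T) ≠ 0 := (ENNReal.ofReal_pos.2 (by positivity)).ne'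
  have hnt : ENNReal.ofReal (x / T) ≠ ⊤ := ENNReal.ofReal_ne_top
  -- the average over `h`
  have h1 : ENNReal.ofReal (VA.DD v x / x ^ 2) =
      ∫⁻ _h in I, ENNReal.ofReal (T * VA.DD v x / x ^ 3) := by
    rw [setLIntegral_const, volI, ← ENNReal.ofReal_mul (by
      have := VA.DD_nonneg v x
      positivity)]
    congr 1
    field_simp
  have meas1 : Measurable (fun h : ℝ => ENNReal.ofReal (mg x h / x ^ 3)) :=
    (meas_mg.comp measurable_prodMk_left).div_const _ |>.ennreal_ofReal
  have meas2 : Measurable (fun h : ℝ => ENNReal.ofReal (mg (v * x) h / x ^ 3)) :=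
    (meas_mg.comp measurable_prodMk_left).div_const _ |>.ennreal_ofReal
  have h2 : ∫⁻ _h in I, ENNReal.ofReal (T * VA.DD v x / x ^ 3) ≤
      ∫⁻ h in I, (ENNReal.ofReal (2 * T) * ENNReal.ofReal (mg x h / x ^ 3) +
        ENNReal.ofReal (2 * T) * ENNReal.ofReal (mg (v * x) (h - s) / x ^ 3)) := by
    refine lintegral_mono fun h => ?_
    have n1 := mg_nonneg x h
    have n2 := mg_nonneg (v * x) (h - s)
    rw [← ENNReal.ofReal_mul (by positivity), ← ENNReal.ofReal_mul (by positivity),
      ← ENNReal.ofReal_add (by positivity) (by positivity)]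
    apply ENNReal.ofReal_le_ofReal
    have e : v * x + (h - s) = x + h := by rw [hs]; ring
    have key : VA.DD v x ≤ 2 * mg x h + 2 * mg (v * x) (h - s) := by
      unfold VA.DD mg
      rw [e]
      nlinarith [sq_nonneg ((Mer (x + h) - Mer x) + (Mer (x + h) - Mer (v * x)))]
    calc T * VA.DD v x / x ^ 3 ≤ T * (2 * mg x h + 2 * mg (v * x) (h - s)) / x ^ 3 := by
          apply div_le_div_of_nonneg_right _ (by positivity)
          exact mul_le_mul_of_nonneg_left key hT0.le
      _ = _ := by ring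
  rw [h1]
  refine h2.trans ?_
  rw [lintegral_add_left (meas1.const_mul _), lintegral_const_mul _ meas1,
    lintegral_const_mul' _ _ ENNReal.ofReal_ne_top]
  refine add_le_add (mul_le_mul' le_rfl ?_) ?_
  · unfold Ph
    apply lintegral_mono_set
    apply Ioc_subset_Ioc_left
    rw [div_le_div_iff₀ (by positivity) hT0]
    nlinarith
  · have h3 : ∫⁻ h in I, ENNReal.ofReal (mg (v * x) (h - s) / x ^ 3) =
        ∫⁻ h in Ioc (x / T - s) (2 * x / T - s), ENNReal.ofReal (mg (v * x) h / x ^ 3) := by
      rw [← lintegral_indicator measurableSet_Ioc, ← lintegral_indicator measurableSet_Ioc,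
        ← lintegral_sub_right_eq_self (fun h => (Ioc (x / T - s) (2 * x / T - s)).indicator
          (fun h => ENNReal.ofReal (mg (v * x) h / x ^ 3)) h) s]
      refine lintegral_congr fun h => ?_
      by_cases hh : h ∈ I
      · rw [indicator_of_mem hh, indicator_of_mem]
        exact ⟨by linarith [hh.1], by linarith [hh.2]⟩
      · rw [indicator_of_notMem hh, indicator_of_notMem]
        intro hc
        exact hh ⟨by linarith [hc.1], by linarith [hc.2]⟩
    rw [h3]
    have h4 : ∫⁻ h in Ioc (x / T - s) (2 * x / T - s), ENNReal.ofReal (mg (v * x) h / x ^ 3) ≤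
        ENNReal.ofReal 8 * Ph T (v * x) := by
      unfold Ph
      rw [← lintegral_const_mul' _ _ ENNReal.ofReal_ne_top]
      have hsub : Ioc (x / T - s) (2 * x / T - s) ⊆ Ioc (v * x / (4 * T)) (2 * (v * x) / T) := by
        apply Ioc_subset_Ioc
        · have e1 : v * x = x + s := by rw [hs]; ring
          rw [e1, div_le_iff₀ (by positivity), sub_mul]
          have e2 : x / T * (4 * T) = 4 * x := by field_simp
          rw [e2]
          nlinarith
        · have : 2 * x / T ≤ 2 * (v * x) / T := by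
            apply div_le_div_of_nonneg_right _ hT0.le
            nlinarith
          linarith
      refine (lintegral_mono_set hsub).trans (lintegral_mono fun h => ?_)
      have n2 := mg_nonneg (v * x) h
      rw [← ENNReal.ofReal_mul (by norm_num)]
      apply ENNReal.ofReal_le_ofReal
      rw [← mul_div_assoc, div_le_div_iff₀ (by positivity) (by positivity)]
      have k : (v * x) ^ 3 ≤ 8 * x ^ 3 := by
        calc (v * x) ^ 3 ≤ (2 * x) ^ 3 :=
              pow_le_pow_left₀ hvx.le (mul_le_mul_of_nonneg_right hv2 hx.le) 3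
          _ = 8 * x ^ 3 := by ring
      calc mg (v * x) h * (v * x) ^ 3 ≤ mg (v * x) h * (8 * x ^ 3) := mul_le_mul_of_nonneg_left k n2
        _ = 8 * mg (v * x) h * x ^ 3 := by ring
    calc ENNReal.ofReal (2 * T) * ∫⁻ h in Ioc (x / T - s) (2 * x / T - s),
          ENNReal.ofReal (mg (v * x) h / x ^ 3)
        ≤ ENNReal.ofReal (2 * T) * (ENNReal.ofReal 8 * Ph T (v * x)) := mul_le_mul' le_rfl h4
      _ = ENNReal.ofReal (16 * T) * Ph T (v * x) := by
          rw [← mul_assoc, ← ENNReal.ofReal_mul (by positivity)]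
          congr 2
          ring

theorem scale (F : ℝ → ENNReal) {Y N v : ℝ} (hY : 0 < Y) (hYN : Y ≤ N) (hv : 1 ≤ v) (hv2 : v ≤ 2) :
    ∫⁻ x in Ioc Y N, F (v * x) ≤ ∫⁻ x in Ioc Y (2 * N), F x := by
  have hu0 : 0 < v := by linarith
  have hemb : MeasurableEmbedding (fun x : ℝ => v * x) :=
    (Homeomorph.mulLeft₀ v hu0.ne').measurableEmbedding
  have hmap : Measure.map (fun x : ℝ => v * x) volume = ENNReal.ofReal |v⁻¹| • volume :=
    Real.map_volume_mul_left hu0.ne'
  have e1 : ∫⁻ x in Ioc Y N, F (v * x) =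
      ∫⁻ y in Ioc (v * Y) (v * N), F y ∂(Measure.map (fun x : ℝ => v * x) volume) := by
    rw [hemb.restrict_map, hemb.lintegral_map]
    congr 2
    ext x
    simp only [mem_preimage, mem_Ioc]
    constructor
    · rintro ⟨a, b⟩
      exact ⟨by nlinarith, by nlinarith⟩
    · rintro ⟨a, b⟩
      exact ⟨lt_of_mul_lt_mul_left a hu0.le, le_of_mul_le_mul_left b hu0⟩
  rw [e1, hmap, Measure.restrict_smul, lintegral_smul_measure]
  rw [smul_eq_mul]
  calc ENNReal.ofReal |v⁻¹| * ∫⁻ y in Ioc (v * Y) (v * N), F y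
      ≤ 1 * ∫⁻ y in Ioc (v * Y) (v * N), F y := by
        refine mul_le_mul' ?_ le_rfl
        rw [ENNReal.ofReal_le_one, abs_of_pos (by positivity)]
        exact inv_le_one_of_one_le₀ hv
    _ ≤ ∫⁻ y in Ioc Y (2 * N), F y := by
        rw [one_mul]
        apply lintegral_mono_set
        apply Ioc_subset_Ioc
        · nlinarith
        · nlinarith

/-- differences at a fixed ratio -/
theorem DD_le (T v Y N : ℝ) (hT : 16 ≤ T) (hv1 : 1 ≤ v) (hv : v ≤ Real.exp (1 / (8 * T)))
    (hY : 0 < Y) (hYN : Y ≤ N) :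
    ∫⁻ x in Ioc Y N, ENNReal.ofReal (VA.DD v x / x ^ 2) ≤
      ENNReal.ofReal (144 / T) *
        QQ (fun x h => ENNReal.ofReal (md x h / (h ^ 2 * x))) T 8 2 Y (4 * N) := by
  have hT0 : 0 < T := by linarith
  have hv' := vbound hT hv
  have hv2 : v ≤ 2 := by
    have : 9 / (64 * T) ≤ 1 := by
      rw [div_le_one (by positivity)]
      linarith
    linarith
  have hG := QG_le T Y (2 * N) hT hY
  have e4 : 2 * (2 * N) = 4 * N := by ring
  rw [e4] at hG
  set G := QQ (fun x h => ENNReal.ofReal (mg x h / x ^ 3)) T 4 2 Y (2 * N) with hGdef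
  have hGP : G = ∫⁻ x in Ioc Y (2 * N), Ph T x := rfl
  calc ∫⁻ x in Ioc Y N, ENNReal.ofReal (VA.DD v x / x ^ 2)
      ≤ ∫⁻ x in Ioc Y N, (ENNReal.ofReal (2 * T) * Ph T x + ENNReal.ofReal (16 * T) * Ph T (v * x)) :=
        setLIntegral_mono' measurableSet_Ioc fun x hx => pt T v x hT hv1 hv (hY.trans hx.1)
    _ = ENNReal.ofReal (2 * T) * (∫⁻ x in Ioc Y N, Ph T x) +
        ENNReal.ofReal (16 * T) * ∫⁻ x in Ioc Y N, Ph T (v * x) := by
        rw [lintegral_add_left ((meas_Ph T).const_mul _), lintegral_const_mul _ (meas_Ph T),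
          lintegral_const_mul' _ _ ENNReal.ofReal_ne_top]
    _ ≤ ENNReal.ofReal (2 * T) * G + ENNReal.ofReal (16 * T) * G := by
        refine add_le_add (mul_le_mul' le_rfl ?_) (mul_le_mul' le_rfl ?_)
        · rw [hGP]
          apply lintegral_mono_set
          apply Ioc_subset_Ioc_right
          linarith
        · exact scale _ hY hYN hv1 hv2
    _ = ENNReal.ofReal (18 * T) * G := by
        rw [← add_mul, ← ENNReal.ofReal_add (by positivity) (by positivity)]
        congr 2
        ring
    _ ≤ ENNReal.ofReal (18 * T) * (ENNReal.ofReal (8 / T ^ 2) *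
        QQ (fun x h => ENNReal.ofReal (md x h / (h ^ 2 * x))) T 8 2 Y (4 * N)) :=
        mul_le_mul' le_rfl hG
    _ = _ := by
        rw [← mul_assoc, ← ENNReal.ofReal_mul (by positivity)]
        congr 2
        field_simp
        norm_num

end Pool.Agent.K1H70.GC
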