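import Pool.Agent.K1H70.GC.Ab2

/-!
# From the mean of the squares to the mean of the variances
-/

set_option autoImplicit false

open MeasureTheory Set Filter

namespace Pool.Agent.K1H70.GC

open Pool.Agent.H448R2.GC

theorem md_int {X H : ℝ} (hH : 0 < H) : IntegrableOn (fun x => md x H) (Ioc X (2 * X)) := by
  refine (SV.integrable_MH (a := X) (b := 2 * X) hH).congr ?_
  filter_upwards [ae_restrict_of_ae (SV.ae_MH hH)] with x hx
  rw [hx]
  rfl

theorem VV_eq {X H : ℝ} (hX : 0 < X) (hH : 0 < H) :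
    VV X H = (1 / X) * ∫ x in Ioc X (2 * X), md x H := by
  unfold VV
  rw [intervalIntegral.integral_of_le (by linarith)]
  congr 1
  apply integral_congr_ae
  filter_upwards [ae_restrict_of_ae (SV.ae_MH hH)] with x hx
  rw [hx]
  rfl

theorem VV_nonneg {X H : ℝ} (hX : 0 < X) (hH : 0 < H) : 0 ≤ VV X H := by
  rw [VV_eq hX hH]
  exact mul_nonneg (by positivity) (integral_nonneg fun x => md_nonneg x H)

theorem VV_lint {X H : ℝ} (hX : 0 < X) (hH : 0 < H) :
    ENNReal.ofReal (VV X H / (H ^ 2 * X)) =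
      ∫⁻ x in Ioc X (2 * X), ENNReal.ofReal (md x H / (H ^ 2 * X ^ 2)) := by
  rw [VV_eq hX hH, ← ofReal_integral_eq_lintegral_ofReal ((md_int hH).div_const _)
    (Eventually.of_forall fun x => div_nonneg (md_nonneg x H) (by positivity))]
  congr 1
  rw [integral_div]
  field_simp

/-- the set of the triples -/
def SS (T y z : ℝ) : Set ((ℝ × ℝ) × ℝ) :=
  {p | p.1 ∈ RR T 16 4 y z ∧ (p.1.1 < p.2 ∧ p.2 ≤ 2 * p.1.1)}

theorem meas_SS (T y z : ℝ) : MeasurableSet (SS T y z) :=
  (measurable_fst (meas_RR T 16 4 y z)).inter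
    ((measurableSet_lt (measurable_fst.comp measurable_fst) measurable_snd).inter
      (measurableSet_le measurable_snd ((measurable_fst.comp measurable_fst).const_mul 2)))

/-- the integrand on the triples -/
noncomputable def PP (T y z : ℝ) : (ℝ × ℝ) × ℝ → ENNReal :=
  (SS T y z).indicator (fun p => ENNReal.ofReal (md p.2 p.1.2 / (p.1.2 ^ 2 * p.1.1 ^ 2)))

theorem meas_PP (T y z : ℝ) : Measurable (PP T y z) := by
  have f1 : Measurable (fun p : (ℝ × ℝ) × ℝ => p.1.1) := measurable_fst.comp measurable_fst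
  have f2 : Measurable (fun p : (ℝ × ℝ) × ℝ => p.1.2) := measurable_snd.comp measurable_fst
  have f4 : Measurable (fun p : (ℝ × ℝ) × ℝ => p.2) := measurable_snd
  have h1 : Measurable (fun p : (ℝ × ℝ) × ℝ => md p.2 p.1.2) := by
    unfold md
    exact ((meas_Mer'.comp (f4.add (f2.div_const 2))).sub
      (meas_Mer'.comp (f4.sub (f2.div_const 2)))).pow_const 2
  have h2 : Measurable (fun p : (ℝ × ℝ) × ℝ => p.1.2 ^ 2 * p.1.1 ^ 2) :=
    (f2.pow_const 2).mul (f1.pow_const 2)
  have h3 : Measurable (fun p : (ℝ × ℝ) × ℝ => md p.2 p.1.2 / (p.1.2 ^ 2 * p.1.1 ^ 2)) := h1.div h2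
  have h4 : Measurable (fun p : (ℝ × ℝ) × ℝ =>
      ENNReal.ofReal (md p.2 p.1.2 / (p.1.2 ^ 2 * p.1.1 ^ 2))) := h3.ennreal_ofReal
  unfold PP
  exact h4.indicator (meas_SS T y z)

theorem QV_eq (T y z : ℝ) (hT : 0 < T) (hy : 0 ≤ y) :
    QQ (fun X H => ENNReal.ofReal (VV X H / (H ^ 2 * X))) T 16 4 y z =
      ∫⁻ X, ∫⁻ H, ∫⁻ x, PP T y z ((X, H), x) := by
  rw [QQ_eq]
  refine lintegral_congr fun X => lintegral_congr fun H => ?_
  by_cases hm : (X, H) ∈ RR T 16 4 y z
  · rw [indicator_of_mem hm]
    have hX : 0 < X := lt_of_le_of_lt hy hm.1.1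
    have hH : 0 < H := lt_trans (by positivity) hm.2.1
    simp only
    rw [VV_lint hX hH, ← lintegral_indicator measurableSet_Ioc]
    refine lintegral_congr fun x => ?_
    unfold PP
    by_cases hx : x ∈ Ioc X (2 * X)
    · rw [indicator_of_mem hx, indicator_of_mem (show ((X, H), x) ∈ SS T y z from ⟨hm, hx⟩)]
    · rw [indicator_of_notMem hx]
      exact (indicator_of_notMem (show ((X, H), x) ∉ SS T y z from fun hc => hx hc.2) _).symm
  · rw [indicator_of_notMem hm]
    have : ∀ x, PP T y z ((X, H), x) = 0 := fun x =>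
      indicator_of_notMem (show ((X, H), x) ∉ SS T y z from fun hc => hm hc.1) _
    simp only [this, lintegral_zero]

theorem QV_swap (T y z : ℝ) (hT : 0 < T) (hy : 0 ≤ y) :
    QQ (fun X H => ENNReal.ofReal (VV X H / (H ^ 2 * X))) T 16 4 y z =
      ∫⁻ H, ∫⁻ x, ∫⁻ X, PP T y z ((X, H), x) := by
  rw [QV_eq T y z hT hy]
  have m1 : Measurable (fun p : ℝ × ℝ => ∫⁻ x, PP T y z (p, x)) := (meas_PP T y z).lintegral_prod_right'
  rw [lintegral_lintegral_swap (f := fun X H => ∫⁻ x, PP T y z ((X, H), x)) m1.aemeasurable]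
  refine lintegral_congr fun H => ?_
  have m2 : Measurable (fun p : ℝ × ℝ => PP T y z ((p.1, H), p.2)) :=
    (meas_PP T y z).comp ((measurable_fst.prodMk measurable_const).prodMk measurable_snd)
  exact lintegral_lintegral_swap (f := fun X x => PP T y z ((X, H), x)) m2.aemeasurable

/-- **The mean of the variances is at least half of the mean of the squares.** -/
theorem QM_le_QV (T y z : ℝ) (hT : 0 < T) (hy : 0 < y) :
    QM T (2 * y) z ≤ 2 * QQ (fun X H => ENNReal.ofReal (VV X H / (H ^ 2 * X))) T 16 4 y z := by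
  have m2 : Measurable (fun p : ℝ × ℝ => ENNReal.ofReal (md p.1 p.2 / (p.2 ^ 2 * p.1))) :=
    (meas_md.div ((measurable_snd.pow_const 2).mul measurable_fst)).ennreal_ofReal
  unfold QM
  rw [QV_swap T y z hT hy.le, QQ_swap _ m2, ← lintegral_const_mul' _ _ (by norm_num)]
  refine lintegral_mono fun H => ?_
  rw [← lintegral_const_mul' _ _ (by norm_num)]
  refine lintegral_mono fun x => ?_
  by_cases hm : (x, H) ∈ RR T 8 2 (2 * y) z
  · rw [indicator_of_mem hm]
    obtain ⟨⟨h1, h2⟩, h3, h4⟩ := hm
    simp only at h1 h2 h3 h4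
    have hx : 0 < x := by linarith
    have hH : 0 < H := lt_trans (by positivity) h3
    rw [div_lt_iff₀ (by positivity)] at h3
    rw [le_div_iff₀ hT] at h4
    have key : ∫⁻ _X in Ico (x / 2) x, ENNReal.ofReal (md x H / (H ^ 2 * x ^ 2)) ≤
        ∫⁻ X, PP T y z ((X, H), x) := by
      rw [← lintegral_indicator measurableSet_Ico]
      refine lintegral_mono fun X => ?_
      by_cases hX : X ∈ Ico (x / 2) x
      · rw [indicator_of_mem hX]
        obtain ⟨k1, k2⟩ := hX
        have hX0 : 0 < X := by linarith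
        have hmem : ((X, H), x) ∈ SS T y z := by
          refine ⟨⟨⟨?_, ?_⟩, ?_, ?_⟩, ?_, ?_⟩
          · simp only; linarith
          · simp only; linarith
          · simp only
            rw [div_lt_iff₀ (by positivity)]
            nlinarith
          · simp only
            rw [le_div_iff₀ hT]
            linarith
          · simp only; linarith
          · simp only; linarith
        unfold PP
        rw [indicator_of_mem hmem]
        simp only
        apply ENNReal.ofReal_le_ofReal
        apply div_le_div_of_nonneg_left (md_nonneg x H) (by positivity)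
        apply mul_le_mul_of_nonneg_left _ (by positivity)
        exact pow_le_pow_left₀ hX0.le k2.le 2
      · rw [indicator_of_notMem hX]
        exact zero_le
    rw [setLIntegral_const, Real.volume_Ico] at key
    refine le_trans (le_of_eq ?_) (mul_le_mul' le_rfl key)
    have e2 : (2 : ENNReal) = ENNReal.ofReal 2 := by simp
    have := md_nonneg x H
    rw [e2, ← ENNReal.ofReal_mul (by positivity), ← ENNReal.ofReal_mul (by positivity)]
    congr 1
    field_simp
    ring
  · rw [indicator_of_notMem hm]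
    exact zero_le

end Pool.Agent.K1H70.GC
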